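import Pool.Agent.Lib.MP_5fcc10_co_lin.DelDef
import Pool.Agent.Lib.MP_5fcc10_co_lin_h87.DP2

/-! Module FEW: few deleted edges near a vertex. -/

set_option linter.unusedSectionVars false

namespace Pool.Agent.SK.Lin

open Finset
open scoped symmDiff

namespace H16

variable {n p : ℕ}

lemma mem_seg {d : ℕ} {a : Fin d → Fin n} {l : ℕ} {e : Fin n} :
    e ∈ (univ.filter (fun r : Fin d => r.val < l)).image a ↔ ∃ r : Fin d, r.val < l ∧ a r = e := by
  simp [mem_image, mem_filter]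

lemma seg_snoc {l : ℕ} (b : Fin l → Fin n) (e : Fin n) (k : ℕ) (hk : k ≤ l) :
    (univ.filter (fun r : Fin (l+1) => r.val < k)).image (Fin.snoc b e : Fin (l+1) → Fin n)
      = (univ.filter (fun r : Fin l => r.val < k)).image b := by
  ext x
  rw [mem_seg, mem_seg]
  constructor
  · rintro ⟨r, hr, hx⟩
    refine ⟨⟨r.val, lt_of_lt_of_le hr hk⟩, hr, ?_⟩
    rw [← hx]
    have : r = Fin.castSucc ⟨r.val, lt_of_lt_of_le hr hk⟩ := rfl
    conv_rhs => rw [this]
    rw [Fin.snoc_castSucc (α := fun _ => Fin n)]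
  · rintro ⟨r, hr, hx⟩
    refine ⟨Fin.castSucc r, hr, ?_⟩
    rw [Fin.snoc_castSucc (α := fun _ => Fin n)]
    exact hx

lemma pe_snoc_castSucc (Z : Finset (Fin n)) {l : ℕ} (b : Fin l → Fin n) (e : Fin n) (r : Fin l) :
    pe Z (Fin.snoc b e : Fin (l+1) → Fin n) (Fin.castSucc r) = pe Z b r := by
  unfold pe pv
  rw [Fin.snoc_castSucc (α := fun _ => Fin n)]
  have h : (univ.filter (fun s : Fin (l+1) => s.val < (Fin.castSucc r).val)).image
      (Fin.snoc b e : Fin (l+1) → Fin n) = (univ.filter (fun s : Fin l => s.val < r.val)).image b :=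
    seg_snoc b e r.val r.isLt.le
  rw [h]

lemma pe_snoc_last (Z : Finset (Fin n)) {l : ℕ} (b : Fin l → Fin n) (e : Fin n) :
    pe Z (Fin.snoc b e : Fin (l+1) → Fin n) (Fin.last l) = ed (pv Z b l) e := by
  unfold pe pv
  rw [Fin.snoc_last (α := fun _ => Fin n), Fin.val_last, seg_snoc b e l le_rfl]

lemma snoc_injective {l : ℕ} {b : Fin l → Fin n} {e : Fin n} (hb : Function.Injective b)
    (he : ∀ r, b r ≠ e) : Function.Injective (Fin.snoc b e : Fin (l+1) → Fin n) := by
  intro x y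
  refine Fin.lastCases ?_ (fun x => ?_) x
  · refine Fin.lastCases ?_ (fun y => ?_) y
    · intro _; rfl
    · intro h
      rw [Fin.snoc_last (α := fun _ => Fin n), Fin.snoc_castSucc (α := fun _ => Fin n)] at h
      exact absurd h.symm (he y)
  · refine Fin.lastCases ?_ (fun y => ?_) y
    · intro h
      rw [Fin.snoc_last (α := fun _ => Fin n), Fin.snoc_castSucc (α := fun _ => Fin n)] at h
      exact absurd h (he x)
    · intro h
      rw [Fin.snoc_castSucc (α := fun _ => Fin n), Fin.snoc_castSucc (α := fun _ => Fin n)] at h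
      rw [hb h]

lemma pv_snoc_last (Z : Finset (Fin n)) {l : ℕ} (b : Fin l → Fin n) (e : Fin n)
    (he : ∀ r, b r ≠ e) :
    pv Z (Fin.snoc b e : Fin (l+1) → Fin n) (l+1) = tg (pv Z b l) e := by
  unfold pv tg
  rw [symmDiff_assoc]
  congr 1
  ext z
  rw [mem_symmDiff, mem_singleton, mem_seg, mem_seg]
  constructor
  · rintro ⟨r, _, hx⟩
    revert hx
    refine Fin.lastCases ?_ (fun r => ?_) r
    · intro hx
      rw [Fin.snoc_last (α := fun _ => Fin n)] at hx
      right
      refine ⟨hx.symm, ?_⟩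
      rintro ⟨s, _, hs⟩
      exact he s (hs.trans hx.symm)
    · intro hx
      rw [Fin.snoc_castSucc (α := fun _ => Fin n)] at hx
      left
      exact ⟨⟨r, r.isLt, hx⟩, fun h => he r (hx.trans h)⟩
  · rintro (⟨⟨r, _, hx⟩, _⟩ | ⟨hx, _⟩)
    · refine ⟨Fin.castSucc r, ?_, ?_⟩
      · exact (Fin.castSucc r).isLt
      · rw [Fin.snoc_castSucc (α := fun _ => Fin n)]
        exact hx
    · refine ⟨Fin.last l, (Fin.last l).isLt, ?_⟩
      rw [Fin.snoc_last (α := fun _ => Fin n)]
      exact hx.symm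

/-- an open path from `u` to `v`, reversed -/
lemma rev_path (ψ : Ix n → Lb p) (cl : Lb p) (t : ℕ) (v : Finset (Fin n)) (l : ℕ) :
    ∀ (u U : Finset (Fin n)), cnt t (opn cl ψ) l u U v ≠ 0 →
    ∃ a : Fin l → Fin n, Function.Injective a ∧ pv v a l = u ∧
      (∀ x ∈ pes v a, (ψ x).1 = cl.1) ∧ ∀ r, a r ∉ U := by
  induction l with
  | zero =>
    intro u U h
    have huv : u = v := by
      by_contra hne
      apply h
      change (if u = v then (1:ℝ) else 0) = 0
      rw [if_neg hne]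
    refine ⟨fun r => r.elim0, fun r => r.elim0, ?_, ?_, fun r => r.elim0⟩
    · rw [huv]
      unfold pv
      have : univ.filter (fun r : Fin 0 => r.val < 0) = ∅ := by
        rw [filter_eq_empty_iff]
        intro r _ h
        exact absurd h (Nat.not_lt_zero _)
      rw [this, image_empty]
      exact symmDiff_bot v
    · intro x hx
      unfold pes at hx
      rw [mem_image] at hx
      obtain ⟨r, _, _⟩ := hx
      exact r.elim0
  | succ l ih =>
    intro u U h
    rw [cnt_succ] at h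
    obtain ⟨e, he, hne⟩ := exists_ne_zero_of_sum_ne_zero h
    obtain ⟨h1, h2⟩ := mem_sdiff.1 he
    have h3 : cnt t (opn cl ψ) l (tg u e) (insert e U) v ≠ 0 := right_ne_zero_of_mul hne
    have h4 : opP cl ψ u e := opP_of_ne (left_ne_zero_of_mul hne)
    obtain ⟨a, ha1, ha2, ha3, ha4⟩ := ih _ _ h3
    have hae : ∀ r, a r ≠ e := fun r hr => ha4 r (by rw [hr]; exact mem_insert_self e U)
    refine ⟨Fin.snoc a e, snoc_injective ha1 hae, ?_, ?_, ?_⟩
    · rw [pv_snoc_last v a e hae, ha2, tg_tg]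
    · intro x hx
      unfold pes at hx
      rw [mem_image] at hx
      obtain ⟨r, _, hx⟩ := hx
      revert hx
      refine Fin.lastCases ?_ (fun r => ?_) r
      · intro hx
        rw [pe_snoc_last, ha2, ed_tg] at hx
        rw [← hx]
        exact h4.1
      · intro hx
        rw [pe_snoc_castSucc] at hx
        exact ha3 x (mem_image.2 ⟨r, mem_univ _, hx⟩)
    · intro r
      refine Fin.lastCases ?_ (fun r => ?_) r
      · rw [Fin.snoc_last (α := fun _ => Fin n)]
        exact h2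
      · rw [Fin.snoc_castSucc (α := fun _ => Fin n)]
        exact fun hr => ha4 r (mem_insert_of_mem hr)

end H16

open Classical in
theorem few_del {n p m d0 T : ℕ} [NeZero p] (ψ : Ix n → Lb p)
    (hno : ∀ (v : Finset (Fin n)) (i : ZMod p) (lam : Fin T → Str n p m d0),
      (∀ r, (lam r).ok ∧ (lam r).occ ψ v i ∧
      ¬ (lam r).S v ⊆ (univ.filter (fun s => s < r)).biUnion (fun s => (lam s).S v)) → False)
    (t : ℕ) (cl : Lb p) (v : Finset (Fin n)) :
    ((univ : Finset (Finset (Fin n) × Fin n)).filter (fun y => Del d0 ψ cl.1 y.1 y.2 ∧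
      ∃ l ≤ m, cnt t (opn cl ψ) l y.1 ∅ v ≠ 0)).card ≤ 2 * (T * (m + 2 * d0)) := by
  apply few_of_no_chain m d0 v cl.1 T ψ (hno v cl.1)
  intro y hy
  rw [mem_filter] at hy
  obtain ⟨_, ⟨d, a, π, j, h, hd3, hdd, hinj, hconn, hDP, ha0⟩, l, hl, hc⟩ := hy
  obtain ⟨b, hb1, hb2, hb3, _⟩ := H16.rev_path ψ cl t v l y.1 ∅ hc
  refine ⟨(⟨⟨l, Nat.lt_succ_of_le hl⟩, b⟩, ⟨⟨d, Nat.lt_succ_of_le hdd⟩, a, π⟩, j),
    ⟨hb1, hd3, hinj, hconn⟩, ⟨hb3, ?_, ?_⟩, hb2, h, ha0⟩
  · intro x hx
    have hx' : x ∈ pes (pv v b l) a := hx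
    rw [hb2] at hx'
    exact hDP.1 x hx'
  · intro x hx
    have hx' : x ∈ pes (pv v b l) (a ∘ π) := hx
    rw [hb2] at hx'
    exact hDP.2 x hx'

end Pool.Agent.SK.Lin
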